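import Pool.Agent.K1H10.SP.Num.Chk

set_option autoImplicit false

namespace Pool.Agent.K1H10.SP

theorem lpP_2 : lpAll 18 9 true = true := by decide +kernel

theorem lpM_2 : lpAll 18 9 false = true := by decide +kernel

theorem lpP_3 : lpAll 27 9 true = true := by decide +kernel

theorem lpM_3 : lpAll 27 9 false = true := by decide +kernel

end Pool.Agent.K1H10.SP
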