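import Pool.Agent.K1H10.SP.Num.Chk

set_option autoImplicit false

namespace Pool.Agent.K1H10.SP

theorem chk_4 : ((Data.drop (25 * 4)).take 25).all chk = true := by decide +kernel

theorem chk_5 : ((Data.drop (25 * 5)).take 25).all chk = true := by decide +kernel

end Pool.Agent.K1H10.SP
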