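import Pool.Agent.K1H10.SP.Num.Chk

set_option autoImplicit false

namespace Pool.Agent.K1H10.SP

theorem row_8 : ((Data.map rowD).drop (25 * 8)).take 25 = (RW.drop (25 * 8)).take 25 := by
  decide +kernel

theorem row_9 : ((Data.map rowD).drop (25 * 9)).take 25 = (RW.drop (25 * 9)).take 25 := by
  decide +kernel

end Pool.Agent.K1H10.SP
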