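import Pool.Agent.K1H10.SP.Num.Chk

set_option autoImplicit false

namespace Pool.Agent.K1H10.SP

theorem tab_0 : tAll 0 10 = true := by decide +kernel

theorem tab_1 : tAll 10 10 = true := by decide +kernel

theorem tab_2 : tAll 20 10 = true := by decide +kernel

end Pool.Agent.K1H10.SP
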