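import Pool.Agent.K1H10.SP.Table
import Pool.Agent.K1H10.SP.Data
import Pool.Agent.K1H10.SP.Rows
import Pool.Agent.K1H10.SP.Lam

set_option autoImplicit false

namespace Pool.Agent.K1H10.SP

/-- all checks of one set -/
def chk (t : ℕ × List ℕ × Bool) : Bool :=
  validL t.1 t.2.1 t.2.2 && niceCheck ctf t.1 t.2.1 t.2.2 &&
    Nat.ble (gI ctf t.2.1 t.2.2 1).natAbs (3 * 2 ^ 64 - 100) &&
    Nat.blt (2 ^ 75) (etaI ctf t.2.1 t.2.2).natAbs

/-- the packed row of one set -/
def rowD (t : ℕ × List ℕ × Bool) : ℤ × ℕ := rowS ctf TLf t.2.1 t.2.2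

/-- the dual certificate checks for the vertices `a+1, …, a+len` -/
def lpAll (a len : ℕ) (pos : Bool) : Bool :=
  (List.range' a len).all
    (fun i => lpCheck RW (i + 1) pos ((if pos then lamP else lamM).getD i (0, 0)))

/-- the checks of the packed table -/
def tAll (a len : ℕ) : Bool :=
  (List.range' a len).all (fun i => decide (TLf i = packT ctf i 89))

end Pool.Agent.K1H10.SP
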