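import Pool.Agent.K1H10.SP.Num.Chk

set_option autoImplicit false

namespace Pool.Agent.K1H10.SP

theorem lpP_8 : lpAll 72 9 true = true := by decide +kernel

theorem lpM_8 : lpAll 72 9 false = true := by decide +kernel

theorem lpP_9 : lpAll 81 8 true = true := by decide +kernel

theorem lpM_9 : lpAll 81 8 false = true := by decide +kernel

end Pool.Agent.K1H10.SP
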